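import Pool.Agent.Run7.h619.PR.Iface2

/-!
# Project of helper619 (MP_4a0782_an), piece LOOP: existence of homoclinic loops
-/

set_option autoImplicit false

open scoped Topology
open Filter Set Metric

universe w

namespace Run7.h376.PR

open Run7.h619.PR Run7.h619.AA

theorem orb_eq {B : Type*} {g : B → B} (hinj : Function.Injective g) {x y : ℤ → B}
    (hx : ∀ i, g (x i) = x (i + 1)) (hy : ∀ i, g (y i) = y (i + 1)) {i j : ℤ} (h : x i = y j) (k : ℤ) :
    x (i + k) = y (j + k) := by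
  refine Int.induction_on k ?_ ?_ ?_
  · simpa using h
  · intro n ih
    rw [← add_assoc, ← add_assoc, ← hx, ← hy, ih]
  · intro n ih
    apply hinj
    rw [hx, hy]
    have e1 : i + (-(n : ℤ) - 1) + 1 = i + -(n : ℤ) := by ring
    have e2 : j + (-(n : ℤ) - 1) + 1 = j + -(n : ℤ) := by ring
    rw [e1, e2]
    exact ih

/-- the periodic extension of a closed chain -/
def ext {B : Type*} (m : ℕ) (c : ℕ → B) (i : ℤ) : B := c (i % (m : ℤ)).toNat

theorem ext_per {B : Type*} (m : ℕ) (c : ℕ → B) (i k : ℤ) : ext m c (i + m * k) = ext m c i := by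
  unfold ext
  rw [Int.add_mul_emod_self_left]

theorem ext_of_lt {B : Type*} {m : ℕ} (c : ℕ → B) {i : ℕ} (hi : i < m) : ext m c (i : ℤ) = c i := by
  unfold ext
  rw [Int.emod_eq_of_lt (by omega) (by omega)]
  rfl

theorem ext_ps {B : Type*} [MetricSpace B] {g : B → B} {δ : ℝ} {m : ℕ} {c : ℕ → B} (hm : 1 ≤ m) (hc : c m = c 0)
    (hps : ∀ i < m, dist (g (c i)) (c (i + 1)) < δ) (i : ℤ) : dist (g (ext m c i)) (ext m c (i + 1)) < δ := by
  have hm0 : (0 : ℤ) < m := by exact_mod_cast hm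
  have h1 := Int.emod_nonneg i hm0.ne'
  have h2 := Int.emod_lt_of_pos i hm0
  obtain ⟨r, hr⟩ : ∃ r : ℕ, (r : ℤ) = i % (m : ℤ) := ⟨(i % (m : ℤ)).toNat, Int.toNat_of_nonneg h1⟩
  obtain ⟨q, hq⟩ : ∃ q : ℤ, q = i / (m : ℤ) := ⟨_, rfl⟩
  have e3 := Int.emod_add_mul_ediv i m
  rw [← hr, ← hq] at e3
  have hrm : r < m := by omega
  have h4 : ext m c i = c r := by
    rw [← e3, ext_per, ext_of_lt c hrm]
  have h5 : ext m c (i + 1) = c (r + 1) := by
    by_cases hcase : r + 1 < m
    · rw [← e3, show (r : ℤ) + m * q + 1 = ((r + 1 : ℕ) : ℤ) + m * q by push_cast; ring, ext_per, ext_of_lt c hcase]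
    · have hrm' : r + 1 = m := by omega
      have e4 : (r : ℤ) + m * q + 1 = ((0 : ℕ) : ℤ) + m * (q + 1) := by
        have : (r : ℤ) + 1 = m := by omega
        push_cast
        linear_combination this
      rw [← e3, e4, ext_per, ext_of_lt c (by omega), hrm', hc]
  rw [h4, h5]
  exact hps r hrm

/-- orbit of a periodic point -/
theorem per_orbit {B : Type*} {g : B → B} {m : ℕ} (hm : 1 ≤ m) {p : B} (hp : g^[m] p = p) :
    ∃ z : ℤ → B, (∀ i, g (z i) = z (i + 1)) ∧ (∀ i k : ℤ, z (i + m * k) = z i) ∧ z 0 = p := by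
  have hm0 : (0 : ℤ) < m := by exact_mod_cast hm
  refine ⟨ext m (fun i => g^[i] p), fun i => ?_, fun i k => ext_per m _ i k, ?_⟩
  · have h1 := Int.emod_nonneg i hm0.ne'
    have h2 := Int.emod_lt_of_pos i hm0
    obtain ⟨r, hr⟩ : ∃ r : ℕ, (r : ℤ) = i % (m : ℤ) := ⟨(i % (m : ℤ)).toNat, Int.toNat_of_nonneg h1⟩
    obtain ⟨q, hq⟩ : ∃ q : ℤ, q = i / (m : ℤ) := ⟨_, rfl⟩
    have e3 := Int.emod_add_mul_ediv i m
    rw [← hr, ← hq] at e3
    have hrm : r < m := by omega
    by_cases hcase : r + 1 < m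
    · rw [← e3, show (r : ℤ) + m * q + 1 = ((r + 1 : ℕ) : ℤ) + m * q by push_cast; ring, ext_per, ext_per,
        ext_of_lt _ hcase, ext_of_lt _ hrm]
      exact (Function.iterate_succ_apply' g r p).symm
    · have hrm' : r + 1 = m := by omega
      have e4 : (r : ℤ) + m * q + 1 = ((0 : ℕ) : ℤ) + m * (q + 1) := by
        have : (r : ℤ) + 1 = m := by omega
        push_cast
        linear_combination this
      rw [← e3, e4, ext_per, ext_per, ext_of_lt _ (by omega : 0 < m), ext_of_lt _ hrm]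
      have : g (g^[r] p) = g^[r + 1] p := (Function.iterate_succ_apply' g r p).symm
      show g (g^[r] p) = p
      rw [this, hrm', hp]
  · have := ext_of_lt (m := m) (fun i => g^[i] p) (by omega : 0 < m)
    exact this

/-- homoclinic orbits which pass near a given point -/
theorem connect {B : Type w} [MetricSpace B] {g : B → B} (hsh : ShadowZ g) (htc : TransChain g) {α : ℝ}
    (hα : 0 < α) (hasy : ∀ x y : ℤ → B, (∀ i, g (x i) = x (i + 1)) → (∀ i, g (y i) = y (i + 1)) →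
      ((∀ i, 0 ≤ i → dist (x i) (y i) ≤ α) → Tendsto (fun i : ℤ => dist (x i) (y i)) atTop (𝓝 0)) ∧
      ((∀ i, i ≤ 0 → dist (x i) (y i) ≤ α) → Tendsto (fun i : ℤ => dist (x i) (y i)) atBot (𝓝 0)))
    {π : ℕ} (hπ : 1 ≤ π) {z : ℤ → B} (hz : ∀ i, g (z i) = z (i + 1)) (hper : ∀ i k : ℤ, z (i + π * k) = z i)
    (y : B) {η : ℝ} (hη : 0 < η) :
    ∃ ζ : ℤ → B, (∀ i, g (ζ i) = ζ (i + 1)) ∧ Tendsto (fun i : ℤ => dist (ζ i) (z i)) atTop (𝓝 0) ∧
      Tendsto (fun i : ℤ => dist (ζ i) (z i)) atBot (𝓝 0) ∧ ∃ a, dist (ζ a) y < η := by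
  obtain ⟨δ, hδ, hsh⟩ := hsh (min η α) (lt_min hη hα)
  obtain ⟨m1, w1, hm1, h10, h1m, h1⟩ := htc δ hδ (z 0) y
  obtain ⟨m2, w2, hm2, h20, h2m, h2⟩ := htc δ hδ y (z 0)
  obtain ⟨c, hc⟩ : ∃ c : ℕ → B, ∀ i, c i = if i ≤ m1 then w1 i else w2 (i - m1) := ⟨_, fun i => rfl⟩
  have hc1 : ∀ i, i ≤ m1 → c i = w1 i := fun i hi => by rw [hc, if_pos hi]
  have hc2 : ∀ i, m1 ≤ i → c i = w2 (i - m1) := by
    intro i hi
    rcases eq_or_lt_of_le hi with h | h
    · rw [← h, hc1 m1 le_rfl, h1m, Nat.sub_self, h20]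
    · rw [hc, if_neg (by omega)]
  obtain ⟨m, hm⟩ : ∃ m, m = m1 + m2 := ⟨_, rfl⟩
  have hc0 : c 0 = z 0 := by rw [hc1 0 (Nat.zero_le _), h10]
  have hcm : c m = c 0 := by
    rw [hc0, hc2 m (by omega), hm, Nat.add_sub_cancel_left, h2m]
  have hchain : ∀ i < m, dist (g (c i)) (c (i + 1)) < δ := by
    intro i hi
    by_cases h : i < m1
    · rw [hc1 i h.le, hc1 (i + 1) h]
      exact h1 i h
    · rw [hc2 i (by omega), hc2 (i + 1) (by omega), show i + 1 - m1 = (i - m1) + 1 by omega]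
      exact h2 (i - m1) (by omega)
  have hCps := ext_ps (g := g) (by omega : 1 ≤ m) hcm hchain
  have hC0 : ext m c 0 = z 0 := by
    have := ext_of_lt (m := m) c (by omega : 0 < m)
    rw [Nat.cast_zero] at this
    rw [this, hc0]
  have hCe : ext m c ((π : ℤ) * m) = z ((π : ℤ) * m) := by
    have e1 := ext_per m c 0 π
    have e2 := hper 0 m
    rw [zero_add] at e1 e2
    rw [mul_comm, e1, hC0, mul_comm, e2]
  obtain ⟨K, hK⟩ : ∃ K : ℤ, K = (π : ℤ) * m := ⟨_, rfl⟩
  have hKm : (m : ℤ) ≤ K := by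
    rw [hK]
    have : (1 : ℤ) ≤ π := by exact_mod_cast hπ
    nlinarith [(Nat.cast_nonneg m : (0 : ℤ) ≤ m)]
  rw [← hK] at hCe
  obtain ⟨W, hW⟩ : ∃ W : ℤ → B, ∀ i, W i = if 0 ≤ i ∧ i < K then ext m c i else z i := ⟨_, fun i => rfl⟩
  have hWC : ∀ i, 0 ≤ i → i ≤ K → W i = ext m c i := by
    intro i hi0 hiK
    rcases eq_or_lt_of_le hiK with h | h
    · rw [hW, if_neg (by omega), h, hCe]
    · rw [hW, if_pos ⟨hi0, h⟩]
  have hWz : ∀ i, i ≤ 0 ∨ K ≤ i → W i = z i := by
    intro i hi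
    rcases hi with hi | hi
    · rcases eq_or_lt_of_le hi with h | h
      · rw [h, hWC 0 le_rfl (by omega), hC0]
      · rw [hW, if_neg (by omega)]
    · rw [hW, if_neg (by omega)]
  have hWps : ∀ i, dist (g (W i)) (W (i + 1)) < δ := by
    intro i
    by_cases h : 0 ≤ i ∧ i < K
    · rw [hWC i h.1 h.2.le, hWC (i + 1) (by omega) (by omega)]
      exact hCps i
    · rw [hWz i (by omega), hWz (i + 1) (by omega), hz, dist_self]
      exact hδ
  obtain ⟨ζ, hζ, hζW⟩ := hsh W hWps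
  refine ⟨ζ, hζ, ?_, ?_, m1, ?_⟩
  · have h5 := (hasy (fun i => ζ (i + K)) (fun i => z (i + K)) (fun i => by rw [hζ]; ring_nf)
      (fun i => by rw [hz]; ring_nf)).1 (by
        intro i hi
        have h6 := hζW (i + K)
        rw [hWz (i + K) (by omega)] at h6
        exact h6.le.trans (min_le_right _ _))
    have h7 : Tendsto (fun i : ℤ => i + -K) atTop atTop := tendsto_atTop_add_const_right atTop (-K) tendsto_id
    have h8 := h5.comp h7
    refine h8.congr fun i => ?_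
    show dist (ζ (i + -K + K)) (z (i + -K + K)) = _
    rw [show i + -K + K = i by ring]
  · apply (hasy ζ z hζ hz).2
    intro i hi
    have h6 := hζW i
    rw [hWz i (Or.inl hi)] at h6
    exact h6.le.trans (min_le_right _ _)
  · have h6 := hζW m1
    rw [hWC m1 (by omega) (by omega), ext_of_lt c (by omega), hc1 m1 le_rfl, h1m] at h6
    exact lt_of_lt_of_le h6 (min_le_left _ _)

theorem t_LOOP : S_ASY.{w} → S_LOOP.{w} := by
  intro hASY B _ _ _ g hg hinj hexp hsh hsp htc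
  obtain ⟨α, hα, hasy⟩ := hASY B g hg hexp
  -- periodic points are dense
  have hdense : ∀ (q : B) (ε : ℝ), 0 < ε → ∃ (m : ℕ) (p : B), 1 ≤ m ∧ g^[m] p = p ∧ dist p q < ε := by
    intro q ε hε
    obtain ⟨δ, hδ, h1⟩ := hsp ε hε
    obtain ⟨m, v, hm, hv0, hvm, hv⟩ := htc δ hδ q q
    obtain ⟨p, hp, hpv⟩ := h1 m v hm (by rw [hvm, hv0]) hv
    refine ⟨m, p, hm, hp, ?_⟩
    have := hpv 0 (by omega)
    rw [hv0] at this
    exact this
  obtain ⟨q0⟩ : Nonempty B := inferInstance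
  obtain ⟨π, p0, hπ, hp0, -⟩ := hdense q0 1 one_pos
  obtain ⟨z, hz, hper, -⟩ := per_orbit hπ hp0
  have hπ0 : (0 : ℤ) < π := by exact_mod_cast hπ
  -- the orbit is finite
  have hfin : (range z).Finite := by
    apply ((Finset.range π).finite_toSet.image (fun i : ℕ => z i)).subset
    rintro _ ⟨i, rfl⟩
    have h1 := Int.emod_nonneg i hπ0.ne'
    have h2 := Int.emod_lt_of_pos i hπ0
    obtain ⟨r, hr⟩ : ∃ r : ℕ, (r : ℤ) = i % (π : ℤ) := ⟨(i % (π : ℤ)).toNat, Int.toNat_of_nonneg h1⟩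
    refine ⟨r, ?_, ?_⟩
    · rw [Finset.mem_coe, Finset.mem_range]
      omega
    · have e3 := Int.emod_add_mul_ediv i π
      rw [← hr] at e3
      show z (r : ℤ) = z i
      rw [← e3, hper]
  have hopen : IsOpen (range z)ᶜ := hfin.isClosed.isOpen_compl
  obtain ⟨y0, hy0⟩ : ∃ y0, y0 ∉ range z := hfin.exists_notMem
  -- general facts on homoclinic orbits
  have hnez : ∀ ζ : ℤ → B, (∀ i, g (ζ i) = ζ (i + 1)) → ∀ a, ζ a ∉ range z → ∀ i j, ζ i ≠ z j := by
    intro ζ hζ a ha i j hij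
    apply ha
    refine ⟨j + (a - i), ?_⟩
    have := orb_eq hinj hζ hz hij (a - i)
    rw [← this]
    congr 1
    ring
  have hnp : ∀ ζ : ℤ → B, (∀ i, g (ζ i) = ζ (i + 1)) → Tendsto (fun i : ℤ => dist (ζ i) (z i)) atTop (𝓝 0) →
      (∀ i j, ζ i ≠ z j) → ∀ i, ∀ k : ℤ, 0 < k → ζ i ≠ ζ (i + k) := by
    intro ζ hζ htop hne i k hk hik
    have h1 : ∀ n : ℕ, ζ (i + k * n) = ζ i := by
      intro n
      induction n with
      | zero => simp
      | succ n ih =>
        have h2 := orb_eq hinj hζ hζ hik (k * n)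
        rw [ih] at h2
        rw [h2]
        congr 1
        push_cast
        ring
    have h3 : ∀ n : ℕ, dist (ζ (i + k * (π * n : ℕ))) (z (i + k * (π * n : ℕ))) = dist (ζ i) (z i) := by
      intro n
      rw [h1]
      congr 1
      have := hper i (k * n)
      rw [← this]
      congr 1
      push_cast
      ring
    have h4 : Tendsto (fun n : ℕ => i + k * ((π * n : ℕ) : ℤ)) atTop atTop := by
      apply tendsto_atTop_mono' atTop (f₁ := fun n : ℕ => i + (n : ℤ))
      · filter_upwards with n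
        have h5 : (1 : ℤ) ≤ k * π := by nlinarith
        push_cast
        nlinarith [(Nat.cast_nonneg n : (0 : ℤ) ≤ n)]
      · exact tendsto_atTop_add_const_left atTop i tendsto_natCast_atTop_atTop
    have h5 := htop.comp h4
    have h6 : Tendsto (fun n : ℕ => dist (ζ i) (z i)) atTop (𝓝 0) := by
      refine h5.congr fun n => ?_
      exact h3 n
    have h7 := tendsto_nhds_unique h6 tendsto_const_nhds
    exact hne i i (dist_eq_zero.1 h7.symm)
  -- the first loop
  obtain ⟨r0, hr0, hball0⟩ := Metric.isOpen_iff.1 hopen y0 hy0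
  obtain ⟨ζ0, hζ0, htop0, hbot0, a0, ha0⟩ := connect hsh htc hα hasy hπ hz hper y0 hr0
  have hne0 : ∀ i j, ζ0 i ≠ z j := hnez ζ0 hζ0 a0 (hball0 ha0)
  have hnp0 := hnp ζ0 hζ0 htop0 hne0
  -- a periodic point off the first orbit
  obtain ⟨m1, y1, hm1, hy1, hd1⟩ := hdense y0 r0 hr0
  have hy1z : y1 ∉ range z := hball0 hd1
  obtain ⟨r1, hr1, hball1⟩ := Metric.isOpen_iff.1 hopen y1 hy1z
  obtain ⟨u, hu, -, hu0⟩ := per_orbit hm1 hy1
  have hζy : ∀ i, ζ0 i ≠ y1 := by
    intro i hi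
    have h1 : ζ0 i = u 0 := by rw [hi, hu0]
    have h2 := orb_eq hinj hζ0 hu h1 m1
    have h3 : u (0 + m1) = u 0 := by
      have h4 : ∀ n : ℕ, u (0 + n) = g^[n] (u 0) := by
        intro n
        induction n with
        | zero => simp
        | succ n ih =>
          rw [Function.iterate_succ_apply', ← ih, hu]
          congr 1
      rw [h4, hu0, hy1]
    rw [h3, ← h1] at h2
    exact hnp0 i m1 (by exact_mod_cast hm1) h2.symm
  obtain ⟨η, hη, hηr, hηζ⟩ : ∃ η : ℝ, 0 < η ∧ η ≤ r1 ∧ ∀ i, η ≤ dist (ζ0 i) y1 := by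
    have ht := (Metric.tendsto_nhds.1 htop0) (r1 / 2) (by linarith)
    have hb := (Metric.tendsto_nhds.1 hbot0) (r1 / 2) (by linarith)
    obtain ⟨K1, hK1⟩ := eventually_atTop.1 ht
    obtain ⟨K2, hK2⟩ := eventually_atBot.1 hb
    have hfar : ∀ i, dist (dist (ζ0 i) (z i)) 0 < r1 / 2 → r1 / 2 ≤ dist (ζ0 i) y1 := by
      intro i hi
      rw [Real.dist_eq, sub_zero, abs_of_nonneg dist_nonneg] at hi
      have h1 : r1 ≤ dist (z i) y1 := by
        by_contra hcon
        push Not at hcon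
        exact (hball1 hcon) ⟨i, rfl⟩
      have h2 := dist_triangle_left (z i) y1 (ζ0 i)
      linarith
    by_cases hKK : K2 ≤ K1
    · obtain ⟨i0, hi0, hmin⟩ := Finset.exists_min_image (Finset.Icc K2 K1) (fun i => dist (ζ0 i) y1)
        ⟨K2, Finset.mem_Icc.2 ⟨le_rfl, hKK⟩⟩
      refine ⟨min (r1 / 2) (dist (ζ0 i0) y1), lt_min (by linarith) (dist_pos.2 (hζy i0)),
        (min_le_left _ _).trans (by linarith), fun i => ?_⟩
      by_cases h1 : K1 ≤ i
      · exact (min_le_left _ _).trans (hfar i (hK1 i h1))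
      · by_cases h2 : i ≤ K2
        · exact (min_le_left _ _).trans (hfar i (hK2 i h2))
        · exact (min_le_right _ _).trans (hmin i (Finset.mem_Icc.2 ⟨by omega, by omega⟩))
    · refine ⟨r1 / 2, by linarith, by linarith, fun i => ?_⟩
      by_cases h1 : K1 ≤ i
      · exact hfar i (hK1 i h1)
      · exact hfar i (hK2 i (by omega))
  -- the second loop
  obtain ⟨ζ1, hζ1, htop1, hbot1, a1, ha1⟩ := connect hsh htc hα hasy hπ hz hper y1 hη
  have hne1 : ∀ i j, ζ1 i ≠ z j := hnez ζ1 hζ1 a1 (hball1 (lt_of_lt_of_le ha1 hηr))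
  have hnp1 := hnp ζ1 hζ1 htop1 hne1
  have hne01 : ∀ i j, ζ1 i ≠ ζ0 j := by
    intro i j hij
    have h1 := orb_eq hinj hζ1 hζ0 hij (a1 - i)
    rw [show i + (a1 - i) = a1 by ring] at h1
    have h2 := hηζ (j + (a1 - i))
    rw [← h1] at h2
    linarith
  refine ⟨π, z, fun l => if l = 0 then ζ0 else ζ1, hπ, hz, ?_, ?_, ?_, ?_, ?_, ?_, ?_⟩
  · intro i
    have := hper i 1
    rw [mul_one] at this
    exact this
  · intro l i
    by_cases h : l = 0
    · simp only [h, if_true]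
      exact hζ0 i
    · simp only [h, if_false]
      exact hζ1 i
  · intro l
    by_cases h : l = 0
    · simp only [h, if_true]
      exact htop0
    · simp only [h, if_false]
      exact htop1
  · intro l
    by_cases h : l = 0
    · simp only [h, if_true]
      exact hbot0
    · simp only [h, if_false]
      exact hbot1
  · intro l i
    by_cases h : l = 0
    · simp only [h, if_true]
      exact hne0 0 i
    · simp only [h, if_false]
      exact hne1 0 i
  · intro l i hi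
    have key : ∀ ζ : ℤ → B, (∀ i, ∀ k : ℤ, 0 < k → ζ i ≠ ζ (i + k)) → ζ 0 ≠ ζ i := by
      intro ζ h
      rcases lt_or_gt_of_ne hi with h1 | h1
      · have := h i (-i) (by omega)
        rw [add_neg_cancel] at this
        exact this.symm
      · have := h 0 i h1
        rw [zero_add] at this
        exact this
    by_cases h : l = 0
    · simp only [h, if_true]
      exact key ζ0 hnp0
    · simp only [h, if_false]
      exact key ζ1 hnp1
  · intro l l' i hll
    by_cases h : l = 0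
    · have h' : l' ≠ 0 := fun h' => hll (h.trans h'.symm)
      simp only [h, h', if_true, if_false]
      exact (hne01 i 0).symm
    · have h' : l' = 0 := by
        fin_cases l <;> fin_cases l' <;> simp_all
      simp only [h, h', if_true, if_false]
      exact hne01 0 i

end Run7.h376.PR
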